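import Pool.Agent.H.MP_88b750_co.A

set_option autoImplicit false

namespace Pool.Agent.Results.MP_88b750_co.Middle
open Finset Pool.Agent.H.MP_88b750_co

/-- the closed rectangles `[x i, x i + a i] × [y i, y i + b i]` with positive integer sides cover
exactly the square `[0, n]²`, have pairwise disjoint interiors and pairwise distinct shapes -/
def Admissible (n m : ℕ) (x y : Fin m → ℝ) (a b : Fin m → ℕ) : Prop :=
  (∀ i, 0 < a i ∧ 0 < b i) ∧
  (⋃ i, Set.Icc (x i) (x i + a i) ×ˢ Set.Icc (y i) (y i + b i)) =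
    Set.Icc (0 : ℝ) n ×ˢ Set.Icc (0 : ℝ) n ∧
  (∀ i j, i ≠ j → Disjoint (Set.Ioo (x i) (x i + a i) ×ˢ Set.Ioo (y i) (y i + b i))
    (Set.Ioo (x j) (x j + a j) ×ˢ Set.Ioo (y j) (y j + b j))) ∧
  ∀ i j, i ≠ j → s(a i, b i) ≠ s(a j, b j)

lemma of_dt {n m : ℕ} (hn : 0 < n) {X Y a b : Fin m → ℕ} (H : DT univ X Y a b 0 0 n n) :
    Admissible n m (fun i => X i) (fun i => Y i) a b := by
  refine ⟨fun i => by have := H.ins i (mem_univ _); omega, ?_, fun i j e => ?_, fun i j e => ?_⟩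
  · have fl : ∀ s : ℝ, 0 ≤ s → s ≤ n → ∃ u : ℕ, u < n ∧ (u : ℝ) ≤ s ∧ s ≤ u + 1 := fun s h0 h1 => by
      rcases h1.lt_or_eq with h | h
      · exact ⟨⌊s⌋₊, (Nat.floor_lt h0).mpr h, Nat.floor_le h0, (Nat.lt_floor_add_one s).le⟩
      · exact ⟨n - 1, by omega, by rw [h]; exact_mod_cast Nat.sub_le n 1,
          by rw [h]; exact_mod_cast (by omega)⟩
    ext ⟨s, t⟩
    simp only [Set.mem_iUnion, Set.mem_prod, Set.mem_Icc]
    refine ⟨fun ⟨i, ⟨c1, c2⟩, c3, c4⟩ => ?_, fun ⟨⟨c1, c2⟩, c3, c4⟩ => ?_⟩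
    · obtain ⟨-, -, -, d1, -, d2⟩ := H.ins i (mem_univ _)
      have e1 : (X i : ℝ) + a i ≤ n := by exact_mod_cast (by omega)
      have e2 : (Y i : ℝ) + b i ≤ n := by exact_mod_cast (by omega)
      exact ⟨⟨(X i).cast_nonneg.trans c1, c2.trans e1⟩, (Y i).cast_nonneg.trans c3, c4.trans e2⟩
    · obtain ⟨u, u1, u2, u3⟩ := fl s c1 c2
      obtain ⟨v, v1, v2, v3⟩ := fl t c3 c4
      obtain ⟨i, -, d1, d2, d3, d4⟩ := H.cov u v (by omega) (by omega) (by omega) (by omega)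
      exact ⟨i, ⟨le_trans (by exact_mod_cast d1) u2, u3.trans (by exact_mod_cast d2)⟩,
        le_trans (by exact_mod_cast d3) v2, v3.trans (by exact_mod_cast d4)⟩
  · refine Set.disjoint_left.mpr fun z ⟨⟨c1, c2⟩, c3, c4⟩ ⟨⟨c5, c6⟩, c7, c8⟩ => ?_
    rcases H.sep i (mem_univ _) j (mem_univ _) e with h | h | h | h <;>
      have := (Nat.cast_le (α := ℝ)).mpr h <;> push_cast at this <;> linarith
  · have := H.dis i (mem_univ _) j (mem_univ _) e
    rw [Ne, Sym2.eq_iff]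
    omega

lemma to_dt {n m : ℕ} {x y : Fin m → ℝ} {a b : Fin m → ℕ} (H : Admissible n m x y a b) :
    ∃ X Y, DT univ X Y a b 0 0 n n := by
  obtain ⟨h0, h1, h2, h3⟩ := H
  have k1 : ∀ s t : ℝ, (0 ≤ s ∧ s ≤ n) ∧ 0 ≤ t ∧ t ≤ n ↔
      ∃ i, (x i ≤ s ∧ s ≤ x i + a i) ∧ y i ≤ t ∧ t ≤ y i + b i := fun s t => by
    simpa only [Set.mem_iUnion, Set.mem_prod, Set.mem_Icc] using (Set.ext_iff.mp h1 (s, t)).symm
  have k2 : ∀ i j, i ≠ j → ∀ s t, (x i < s ∧ s < x i + a i) ∧ y i < t ∧ t < y i + b i →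
      ¬((x j < s ∧ s < x j + a j) ∧ y j < t ∧ t < y j + b j) :=
    fun i j e s t h => Set.disjoint_left.mp (h2 i j e) (show (s, t) ∈ _ from h)
  choose X hX using int_pos h0 k1 k2
  choose Y hY using int_pos (x := y) (y := x) (fun i => (h0 i).symm)
    (fun s t => and_comm.trans ((k1 t s).trans (exists_congr fun _ => and_comm)))
    fun i j e s t h h' => k2 i j e t s h.symm h'.symm
  simp only [hX, hY] at k1 k2
  refine ⟨X, Y, fun i _ => ?_, fun u v _ c1 _ c2 => ?_, fun i _ j _ e => ?_, fun i _ j _ e => ?_⟩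
  · obtain ⟨⟨-, c1⟩, -, c2⟩ := (k1 (X i + a i) (Y i + b i)).mpr ⟨i, by simp⟩
    have := h0 i
    norm_cast at c1 c2
    omega
  · have d1 : (u : ℝ) + 1 ≤ n := by exact_mod_cast (by omega)
    have d2 : (v : ℝ) + 1 ≤ n := by exact_mod_cast (by omega)
    obtain ⟨i, ⟨e1, e2⟩, e3, e4⟩ := (k1 (u + 1 / 2) (v + 1 / 2)).mp
      ⟨⟨by positivity, by linarith⟩, by positivity, by linarith⟩
    have f1 : (X i : ℝ) < u + 1 := by linarith
    have f2 : (u : ℝ) < X i + a i := by linarith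
    have f3 : (Y i : ℝ) < v + 1 := by linarith
    have f4 : (v : ℝ) < Y i + b i := by linarith
    norm_cast at f1 f2 f3 f4
    exact ⟨i, mem_univ _, by omega⟩
  · by_contra hc
    have := h0 i
    have := h0 j
    have g : ∀ p c r : ℕ, p ≤ r → r < p + c → (p : ℝ) < r + 1 / 2 ∧ (r : ℝ) + 1 / 2 < p + c :=
      fun p c r h1 h2 => by
        have : (p : ℝ) ≤ r := by exact_mod_cast h1
        have : (r : ℝ) + 1 ≤ p + c := by exact_mod_cast h2
        constructor <;> linarith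
    exact k2 i j e _ _ ⟨g _ _ (max (X i) (X j)) (by omega) (by omega),
      g _ _ (max (Y i) (Y j)) (by omega) (by omega)⟩ ⟨g _ _ _ (by omega) (by omega),
      g _ _ _ (by omega) (by omega)⟩
  · have := h3 i j e
    rw [Ne, Sym2.eq_iff] at this
    omega

lemma build {k n : ℕ} (hk : 2 ≤ k) (hn : (k + 3) * (k + 4) ≤ 2 * n) : ∃ X Y a b : Fin (k + 5) → ℕ,
    DT univ X Y a b 0 0 n n ∧ ∑ i, (a i + b i) = 3 * n + 2 * k + 6 := by
  obtain ⟨f, f0, fs⟩ : ∃ f : ℕ → ℕ, f 0 = 3 ∧ ∀ i, f (i + 1) = f i + i + 2 :=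
    ⟨fun i => Nat.rec 3 (fun i r => r + i + 2) i, rfl, fun _ => rfl⟩
  have f1 : ∀ i, 2 * f i = i * (i + 3) + 6 := fun i => by
    induction i with
    | zero => omega
    | succ i ih => rw [fs]; linarith
  have fm : ∀ i j, i < j → f i + i + 2 ≤ f j := fun i j h =>
    fs i ▸ monotone_nat_of_le_succ (fun i => by rw [fs]; omega) h
  have fk : f k + 2 * k + 3 ≤ n := by nlinarith [f1 k]
  obtain ⟨g, g1, g2⟩ : ∃ g : ℕ → ℕ, (∀ i < k, g i = i + 2) ∧ f k + g k = n :=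
    ⟨fun i => if i < k then i + 2 else n - f k, fun i h => if_pos h, by simp; omega⟩
  have c : ∀ i : Fin (k + 5), i.1 = 0 ∨ i.1 = 1 ∨ i.1 = 2 ∨ i.1 = 3 ∨ ∃ j ≤ k, i.1 = j + 4 := fun i => by
    by_cases h : i.1 < 4
    · omega
    · exact Or.inr (Or.inr (Or.inr (Or.inr ⟨i - 4, by omega, by omega⟩)))
  obtain ⟨P, P0, P1, P2, P3, P4⟩ : ∃ P : ℕ → ℕ × ℕ × ℕ × ℕ, P 0 = (0, 2, n, n - 2) ∧ P 1 = (0, 0, 1, 1) ∧
      P 2 = (1, 0, 2, 1) ∧ P 3 = (0, 1, 3, 1) ∧ ∀ j, P (j + 4) = (f j, 0, g j, 2) :=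
    ⟨fun i => match i with
      | 0 => (0, 2, n, n - 2) | 1 => (0, 0, 1, 1) | 2 => (1, 0, 2, 1) | 3 => (0, 1, 3, 1)
      | j + 4 => (f j, 0, g j, 2), rfl, rfl, rfl, rfl, fun _ => rfl⟩
  have w : ∀ j ≤ k, 3 ≤ f j ∧ 2 ≤ g j ∧ f j + g j ≤ n ∧ ∀ l ≤ k, j < l → f j + g j ≤ f l ∧ g j < g l := by
    intro j hj
    have := f1 j
    have := f1 k
    refine ⟨by omega, ?_, ?_, fun l h1 h2 => ?_⟩
    · rcases hj.lt_or_eq with h | rfl
      exacts [by rw [g1 j h]; omega, by omega]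
    · rcases hj.lt_or_eq with h | rfl
      exacts [by have := fm j k h; rw [g1 j h]; omega, by omega]
    · have := fm j l h2
      rw [g1 j (by omega)]
      rcases h1.lt_or_eq with h | rfl
      exacts [by rw [g1 l h]; omega, by omega]
  refine ⟨fun i => (P i).1, fun i => (P i).2.1, fun i => (P i).2.2.1, fun i => (P i).2.2.2,
    ⟨fun i _ => ?_, fun u v _ c1 _ c2 => ?_, fun i _ j _ e => ?_, fun i _ j _ e => ?_⟩, ?_⟩
  · rcases c i with h | h | h | h | ⟨j, h1, h⟩ <;> simp only [h, P0, P1, P2, P3, P4]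
    case inr.inr.inr.inr => have := w j h1; omega
    all_goals omega
  · suffices ∃ i < k + 5, (P i).1 ≤ u ∧ u < (P i).1 + (P i).2.2.1 ∧ (P i).2.1 ≤ v ∧
        v < (P i).2.1 + (P i).2.2.2 from this.elim fun i hi => ⟨⟨i, hi.1⟩, mem_univ _, hi.2⟩
    by_cases h1 : 2 ≤ v
    · exact ⟨0, by omega, by simp only [P0]; omega⟩
    by_cases h2 : u < 3
    · by_cases h3 : v = 1
      · exact ⟨3, by omega, by simp only [P3]; omega⟩
      by_cases h4 : u = 0
      · exact ⟨1, by omega, by simp only [P1]; omega⟩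
      · exact ⟨2, by omega, by simp only [P2]; omega⟩
    have d1 := Nat.findGreatest_spec (P := fun j => f j ≤ u) (Nat.zero_le k) (by omega)
    have d2 := Nat.findGreatest_le (P := fun j => f j ≤ u) k
    refine ⟨Nat.findGreatest (fun j => f j ≤ u) k + 4, by omega, by
      simp only [P4]
      refine ⟨d1, ?_, by omega, by omega⟩
      rcases d2.lt_or_eq with h | h
      · have := Nat.findGreatest_is_greatest (P := fun j => f j ≤ u) (Nat.lt_succ_self _) h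
        rw [Nat.succ_eq_add_one, fs] at this
        rw [g1 _ h]
        omega
      · rw [h]; omega⟩
  any_goals
    have e' : i.1 ≠ j.1 := fun h => e (Fin.ext h)
    rcases c i with h | h | h | h | ⟨i', h1, h⟩ <;> rcases c j with h' | h' | h' | h' | ⟨j', h2, h'⟩ <;>
      simp only [h, h', P0, P1, P2, P3, P4] at e' ⊢
    case inr.inr.inr.inr.inr.inr.inr.inr =>
      have := w i' h1
      have := w j' h2
      rcases lt_or_gt_of_ne (show i' ≠ j' by omega) with l | l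
      · have := (w i' h1).2.2.2 j' h2 l; omega
      · have := (w j' h2).2.2.2 i' h1 l; omega
    all_goals first | omega | (have := w i' h1; omega) | (have := w j' h2; omega)
  rw [Fin.sum_univ_eq_sum_range (fun i => (P i).2.2.1 + (P i).2.2.2), show k + 5 = 4 + (k + 1) by ring,
    sum_range_add]
  simp only [sum_range_succ, sum_range_zero, P0, P1, P2, P3, add_comm 4, P4]
  have : ∀ l ≤ k, ∑ i ∈ range l, (g i + 2) + 3 = f l + 2 * l := fun l hl => by
    induction l with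
    | zero => simp [f0]
    | succ l ih => rw [sum_range_succ, fs, g1 l hl]; have := ih (by omega); omega
  have := this k le_rfl
  omega

theorem result : ∀ m n : ℕ, 7 ≤ m → (m - 2) * (m - 1) / 2 ≤ n → n < (m - 1) * m / 2 →
    IsLeast {W : ℤ | ∃ (x y : Fin m → ℝ) (a b : Fin m → ℕ), Admissible n m x y a b ∧
      W = ∑ i, ((a i : ℤ) + b i) - 2 * n} (n + 2 * (m - 2)) := by
  intro m n hm h1 h2
  obtain ⟨k, rfl⟩ : ∃ k, m = k + 5 := ⟨m - 5, by omega⟩
  rw [show k + 5 - 2 = k + 3 by omega, show k + 5 - 1 = k + 4 by omega] at *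
  have e1 : 2 * ((k + 3) * (k + 4) / 2) = (k + 3) * (k + 4) :=
    Nat.two_mul_div_two_of_even (Nat.even_mul_succ_self (k + 3))
  have e2 : 2 * ((k + 4) * (k + 5) / 2) = (k + 4) * (k + 4 + 1) :=
    Nat.two_mul_div_two_of_even (Nat.even_mul_succ_self (k + 4))
  have h3 : (k + 3) * (k + 4) ≤ 2 * n := by omega
  refine ⟨?_, ?_⟩
  · obtain ⟨X, Y, a, b, H, e⟩ := build (by omega) h3
    refine ⟨_, _, a, b, of_dt (by nlinarith) H, ?_⟩
    zify at e
    rw [e]; push_cast; ring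
  · rintro W ⟨x, y, a, b, H, rfl⟩
    obtain ⟨X, Y, H⟩ := to_dt H
    have := lower (m := k + 4) H (by simp) (by nlinarith) (by omega) (by omega)
    zify at this
    push_cast
    linarith

end Pool.Agent.Results.MP_88b750_co.Middle
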